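import Pool.Agent.Run7.h716.ZW.Defs

set_option autoImplicit false

/-! Piece ASM1 of the project ZW (helper716). -/

namespace Run7.h648.ZW

open Run7.h716.ZW Polynomial

theorem t_ASM1 : S_ENDS → S_CAT → S_LOC → S_PATH → S_ASM1 := by
  intro hE hC hL hP M
  have step : ∀ M, (∀ M', M = M' + 1 → All M') → All M := by
    intro M hM L R hLM a b ha hb hab
    have hloc : ∀ c, 0 < c → Loc L R c := fun c hc => hL M hM L R hLM c hc
    have hpath := hP L R hloc
    obtain ⟨⟨a0, ha0, hs⟩, b0, hb0, he⟩ := hE L R (fun A hA => (hLM A hA).1)
    rcases a with _ | x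
    · rcases b with _ | y
      · -- none → none
        refine hC L R none none a0 ha0 (hs a0 le_rfl) ?_
        have hm : 0 < min a0 b0 := lt_min ha0 hb0
        exact hC L R (some a0) none (min a0 b0) hm (hpath a0 (min a0 b0) hm (min_le_left _ _))
          (he _ hm (min_le_right _ _))
      · have hy : 0 < y := hb y rfl
        have hm : 0 < max a0 y := lt_max_of_lt_left ha0
        exact hC L R none (some y) (max a0 y) hm (hs _ (le_max_left _ _))
          (hpath _ y hy (le_max_right _ _))
    · have hx : 0 < x := ha x rfl
      rcases b with _ | y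
      · have hm : 0 < min x b0 := lt_min hx hb0
        exact hC L R (some x) none (min x b0) hm (hpath x _ hm (min_le_left _ _))
          (he _ hm (min_le_right _ _))
      · exact hpath x y (hb y rfl) (hab x y rfl rfl)
  induction M with
  | zero => exact step 0 (fun M' h => by omega)
  | succ M ih =>
    refine step (M + 1) (fun M' h => ?_)
    have : M' = M := by omega
    rw [this]
    exact ih

end Run7.h648.ZW
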